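import Pool.Agent.helper35.MR.SpecB

/-!
# Project mr: ORT (helper33)
-/

set_option autoImplicit false

open Finset

namespace Pool.Agent.helper35.MR

open Pool.Agent.RRank

theorem ORT_mono {K X Y : Type} [Field K] {R R' : ℕ} (hR : R ≤ R') {A : X → Y → K}
    (h : LR R A) : LR R' A := by
  obtain ⟨m, rfl⟩ := Nat.exists_eq_add_of_le hR
  obtain ⟨f, g, hfg⟩ := h
  refine ⟨fun i => Fin.addCases f (fun _ => 0) i, fun i => Fin.addCases g (fun _ => 0) i, ?_⟩
  intro x y
  rw [Fin.sum_univ_add, hfg x y]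
  simp

theorem ORT_ev1 {K X Y : Type} [Field K] [Fintype X] [Fintype Y] (A : X → Y → K) (ξ : X → K)
    (η : Y → K) : ev1 (fun x => ∑ y, A x y * η y) ξ = ev2 A ξ η := by
  unfold ev1 ev2
  refine Finset.sum_congr rfl fun x _ => ?_
  rw [Finset.sum_mul]
  refine Finset.sum_congr rfl fun y _ => ?_
  ring

theorem ORT_ev1' {K X Y : Type} [Field K] [Fintype X] [Fintype Y] (A : X → Y → K) (ξ : X → K)
    (η : Y → K) : ev1 (fun y => ∑ x, A x y * ξ x) η = ev2 A ξ η := by
  unfold ev1 ev2
  rw [Finset.sum_comm]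
  refine Finset.sum_congr rfl fun y _ => ?_
  rw [Finset.sum_mul]
  refine Finset.sum_congr rfl fun x _ => ?_
  ring

theorem ORT_ev2c {K X Y : Type} [Field K] [Fintype X] [Fintype Y] {a : ℕ} (A : Fin a → X → Y → K)
    (c : Fin a → K) (ξ : X → K) (η : Y → K) :
    ev2 (fun x y => ∑ p, c p * A p x y) ξ η = ∑ p, c p * ev2 (A p) ξ η := by
  unfold ev2
  simp_rw [Finset.sum_mul, Finset.mul_sum]
  calc ∑ x, ∑ y, ∑ p, c p * A p x y * (ξ x * η y)
      = ∑ x, ∑ p, ∑ y, c p * A p x y * (ξ x * η y) := by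
        refine Finset.sum_congr rfl fun x _ => Finset.sum_comm
    _ = ∑ p, ∑ x, ∑ y, c p * A p x y * (ξ x * η y) := Finset.sum_comm
    _ = _ := by
        refine Finset.sum_congr rfl fun p _ => Finset.sum_congr rfl fun x _ =>
          Finset.sum_congr rfl fun y _ => by ring

theorem ORT_ev2s {K X Y : Type} [Field K] [Fintype X] [Fintype Y] {k : ℕ} (A : X → Y → K)
    (κ : Fin k → K) (ξ : Fin k → X → K) (η : Fin k → Y → K) :
    ev2 A (fun x => ∑ n, κ n * ξ n x) (fun y => ∑ n, η n y) =
      ∑ n, ∑ n', κ n * ev2 A (ξ n) (η n') := by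
  have e1 : ∀ n n', κ n * ev2 A (ξ n) (η n') =
      ∑ x, ∑ y, A x y * ((κ n * ξ n x) * η n' y) := by
    intro n n'
    unfold ev2
    rw [Finset.mul_sum]
    refine Finset.sum_congr rfl fun x _ => ?_
    rw [Finset.mul_sum]
    refine Finset.sum_congr rfl fun y _ => by ring
  simp_rw [e1]
  unfold ev2
  have e2 : ∀ x y, A x y * ((∑ n, κ n * ξ n x) * ∑ n, η n y) =
      ∑ n, ∑ n', A x y * ((κ n * ξ n x) * η n' y) := by
    intro x y
    rw [Finset.sum_mul, Finset.mul_sum]
    refine Finset.sum_congr rfl fun n _ => ?_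
    rw [Finset.mul_sum, Finset.mul_sum]
  simp_rw [e2]
  calc ∑ x, ∑ y, ∑ n, ∑ n', A x y * ((κ n * ξ n x) * η n' y)
      = ∑ x, ∑ n, ∑ y, ∑ n', A x y * ((κ n * ξ n x) * η n' y) :=
        Finset.sum_congr rfl fun x _ => Finset.sum_comm
    _ = ∑ n, ∑ x, ∑ y, ∑ n', A x y * ((κ n * ξ n x) * η n' y) := Finset.sum_comm
    _ = ∑ n, ∑ x, ∑ n', ∑ y, A x y * ((κ n * ξ n x) * η n' y) :=
        Finset.sum_congr rfl fun n _ => Finset.sum_congr rfl fun x _ => Finset.sum_comm
    _ = _ := Finset.sum_congr rfl fun n _ => Finset.sum_comm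

/-- the successive choice -/
theorem ORT_ind (hL : LRN_stmt) {K X Y : Type} [Field K] [Fintype X] [Fintype Y] (a g : ℕ)
    (A : Fin a → X → Y → K) (hR : Reg (2 * g + 2 * a ^ 2) A) (f : Fin g → X → K)
    (h : Fin g → Y → K) : ∀ k : ℕ, k ≤ a → ∃ (ξ : Fin k → X → K) (η : Fin k → Y → K),
    (∀ i n, ev1 (f n) (ξ i) = 0) ∧ (∀ i n, ev1 (h n) (η i) = 0) ∧
    (∀ i i', i ≠ i' → ∀ j, ev2 (A j) (ξ i) (η i') = 0) ∧
    LinearIndependent K (fun i : Fin k => fun j : Fin a => ev2 (A j) (ξ i) (η i)) := by
  intro k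
  induction k with
  | zero =>
    intro _
    exact ⟨fun i => i.elim0, fun i => i.elim0, fun i => i.elim0, fun i => i.elim0,
      fun i => i.elim0, linearIndependent_empty_type⟩
  | succ k ih =>
    intro hk
    obtain ⟨ξ, η, h1, h2, h3, h4⟩ := ih (by omega)
    set w : Fin k → Fin a → K := fun i j => ev2 (A j) (ξ i) (η i) with hw
    have hlt : Submodule.span K (Set.range w) < ⊤ := by
      rw [lt_top_iff_ne_top]
      intro htop
      have hf := finrank_span_eq_card h4
      rw [htop, finrank_top, Module.finrank_fintype_fun_eq_card, Fintype.card_fin,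
        Fintype.card_fin] at hf
      omega
    obtain ⟨φ, hφ, hker⟩ := Submodule.exists_le_ker_of_lt_top _ hlt
    set c : Fin a → K := fun j => φ (Pi.single j 1) with hc
    have hφc : ∀ v : Fin a → K, φ v = ∑ j, c j * v j := by
      intro v
      conv_lhs => rw [← Finset.univ_sum_single v]
      rw [map_sum]
      refine Finset.sum_congr rfl fun j _ => ?_
      have : (Pi.single j (v j) : Fin a → K) = v j • Pi.single j (1 : K) := by
        rw [← Pi.single_smul, smul_eq_mul, mul_one]
      rw [this, map_smul, smul_eq_mul, mul_comm]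
    have hc0 : c ≠ 0 := by
      intro h0
      apply hφ
      refine LinearMap.ext fun v => ?_
      rw [hφc, h0]
      simp
    have hnot : ¬ LR ((g + a * k) + (g + a * k)) (fun x y => ∑ p, c p * A p x y) := by
      intro hlr
      refine hR c hc0 (ORT_mono ?_ hlr)
      have : a * k ≤ a ^ 2 := by
        rw [pow_two]
        exact Nat.mul_le_mul_left a (by omega)
      omega
    obtain ⟨u, v, hu, hv, huv⟩ := hL K X Y _ (g + a * k) (g + a * k)
      (fun i => Fin.addCases f (fun i => fun x => ∑ y, A (finProdFinEquiv.symm i).1 x y *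
        η (finProdFinEquiv.symm i).2 y) i)
      (fun i => Fin.addCases h (fun i => fun y => ∑ x, A (finProdFinEquiv.symm i).1 x y *
        ξ (finProdFinEquiv.symm i).2 x) i) hnot
    have hu1 : ∀ n, ev1 (f n) u = 0 := by
      intro n
      simpa using hu (Fin.castAdd _ n)
    have hv1 : ∀ n, ev1 (h n) v = 0 := by
      intro n
      simpa using hv (Fin.castAdd _ n)
    have hu2 : ∀ i j, ev2 (A j) u (η i) = 0 := by
      intro i j
      have := hu (Fin.natAdd g (finProdFinEquiv (j, i)))
      rw [← ORT_ev1]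
      simpa only [Fin.addCases_right, Equiv.symm_apply_apply] using this
    have hv2 : ∀ i j, ev2 (A j) (ξ i) v = 0 := by
      intro i j
      have := hv (Fin.natAdd g (finProdFinEquiv (j, i)))
      rw [← ORT_ev1']
      simpa only [Fin.addCases_right, Equiv.symm_apply_apply] using this
    refine ⟨Fin.cons u ξ, Fin.cons v η, ?_, ?_, ?_, ?_⟩
    · intro i
      refine Fin.cases ?_ (fun i => ?_) i
      · exact hu1
      · exact h1 i
    · intro i
      refine Fin.cases ?_ (fun i => ?_) i
      · exact hv1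
      · exact h2 i
    · intro i
      refine Fin.cases ?_ (fun i => ?_) i
      · intro i'
        refine Fin.cases ?_ (fun i' => ?_) i'
        · intro h0
          exact absurd rfl h0
        · intro _ j
          exact hu2 i' j
      · intro i'
        refine Fin.cases ?_ (fun i' => ?_) i'
        · intro _ j
          exact hv2 i j
        · intro hne j
          exact h3 i i' (fun h0 => hne (by rw [h0])) j
    · have e1 : (fun i : Fin (k + 1) => fun j : Fin a => ev2 (A j)
          ((Fin.cons u ξ : Fin (k + 1) → X → K) i) ((Fin.cons v η : Fin (k + 1) → Y → K) i)) =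
          Fin.cons (fun j => ev2 (A j) u v) w := by
        funext i
        refine Fin.cases ?_ (fun i => ?_) i
        · rfl
        · rfl
      rw [e1, linearIndependent_finCons]
      refine ⟨h4, fun hmem => ?_⟩
      have h5 : φ (fun j => ev2 (A j) u v) = 0 := hker hmem
      rw [hφc, ← ORT_ev2c] at h5
      exact huv h5

theorem ORT (hL : LRN_stmt) : ORT_stmt := by
  intro K X Y _ _ _ a g A hR f h p
  obtain ⟨ξ, η, h1, h2, h3, h4⟩ := ORT_ind hL a g A hR f h a le_rfl
  have htop : (⊤ : Submodule K (Fin a → K)) ≤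
      Submodule.span K (Set.range (fun i : Fin a => fun j : Fin a => ev2 (A j) (ξ i) (η i))) := by
    refine (h4.span_eq_top_of_card_eq_finrank' ?_).ge
    simp
  have hmem : (Pi.single p 1 : Fin a → K) ∈
      Submodule.span K (Set.range (fun i : Fin a => fun j : Fin a => ev2 (A j) (ξ i) (η i))) :=
    htop trivial
  rw [Submodule.mem_span_range_iff_exists_fun] at hmem
  obtain ⟨κ, hκ⟩ := hmem
  refine ⟨fun x => ∑ n, κ n * ξ n x, fun y => ∑ n, η n y, ?_, ?_, ?_⟩
  · intro n
    have : ev1 (f n) (fun x => ∑ i, κ i * ξ i x) = ∑ i, κ i * ev1 (f n) (ξ i) := by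
      unfold ev1
      simp_rw [Finset.mul_sum]
      rw [Finset.sum_comm]
      refine Finset.sum_congr rfl fun i _ => Finset.sum_congr rfl fun x _ => by ring
    rw [this]
    exact Finset.sum_eq_zero fun i _ => by rw [h1, mul_zero]
  · intro n
    have : ev1 (h n) (fun y => ∑ i, η i y) = ∑ i, ev1 (h n) (η i) := by
      unfold ev1
      simp_rw [Finset.mul_sum]
      rw [Finset.sum_comm]
    rw [this]
    exact Finset.sum_eq_zero fun i _ => h2 i n
  · intro p'
    rw [ORT_ev2s]
    have e1 : ∀ n, ∑ n', κ n * ev2 (A p') (ξ n) (η n') = κ n * ev2 (A p') (ξ n) (η n) := by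
      intro n
      refine Finset.sum_eq_single n (fun n' _ hn => ?_) (fun hn => absurd (mem_univ _) hn)
      rw [h3 n n' (Ne.symm hn), mul_zero]
    simp_rw [e1]
    have e2 := congrFun hκ p'
    rw [Finset.sum_apply] at e2
    simp only [Pi.smul_apply, smul_eq_mul] at e2
    rw [e2, Pi.single_apply]

end Pool.Agent.helper35.MR
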